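import Pool.Agent.MT100A.Stmts
import Pool.Agent.Helper46_MTG.Ex3

/-! MT100-A, module EXA: the exponentials of `N` are in the Zariski closure of the monodromy. -/

set_option autoImplicit false

namespace Pool.Agent.MT100A.H46

open Matrix Polynomial Pool.Agent.MT100 Pool.Agent.MT100G Pool.Agent.Helper78_MT

variable {d : Type} [Fintype d] [DecidableEq d]

theorem eN_eval (N : Matrix d d ℤ) (s : ℂ) (i j : d) :
    (eN N (X : ℂ[X]) i j).eval s = eN N s i j := by
  unfold eN
  rw [Matrix.sum_apply, Matrix.sum_apply, eval_finsetSum]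
  apply Finset.sum_congr rfl
  intro t _
  rw [Matrix.smul_apply, Matrix.smul_apply, smul_eq_mul, smul_eq_mul, Matrix.map_apply,
    Matrix.map_apply, eval_mul]
  congr 1
  · rw [Algebra.smul_def, Algebra.smul_def, eval_mul, eval_pow, eval_X]
    congr 1
    rw [IsScalarTower.algebraMap_apply ℚ ℂ ℂ[X], Polynomial.algebraMap_apply, Algebra.algebraMap_self,
      RingHom.id_apply, eval_C]
  · rw [eval_intCast]

theorem pev_eN (N : Matrix d d ℤ) (p : MvPolynomial (d × d) ℂ) :
    ∃ G : ℂ[X], ∀ s : ℂ, G.eval s = pev (eN N s) p := by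
  refine ⟨MvPolynomial.aeval (fun ij : d × d => eN N (X : ℂ[X]) ij.1 ij.2) p, fun s => ?_⟩
  have h1 : (Polynomial.aeval s).comp
      (MvPolynomial.aeval (fun ij : d × d => eN N (X : ℂ[X]) ij.1 ij.2)) =
      (MvPolynomial.aeval (fun ij : d × d => eN N s ij.1 ij.2) :
        MvPolynomial (d × d) ℂ →ₐ[ℂ] ℂ) := by
    apply MvPolynomial.algHom_ext
    intro ij
    rw [AlgHom.comp_apply, MvPolynomial.aeval_X, MvPolynomial.aeval_X, Polynomial.coe_aeval_eq_eval]
    exact eN_eval N s ij.1 ij.2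
  have h2 := congrArg (fun f => f p) h1
  simp only [AlgHom.comp_apply, Polynomial.coe_aeval_eq_eval] at h2
  rw [h2]
  rfl

/-- EXA -/
theorem exa (hmoa : MoaStmt) : ExaStmt := by
  intro d _ _ F s
  have hN := F.sys.nil
  obtain ⟨_, h1, hmul, _⟩ := hmoa d F Set.univ
  have h3 : eN F.N (-(2 * Real.pi * Complex.I) : ℂ) ∈ F.mo Set.univ :=
    Pool.Agent.MT100G.H46.ex3 d F.H F.K F.N F.q F.B F.sys
  have hpow : ∀ k : ℕ, eN F.N (-(2 * Real.pi * Complex.I) * k : ℂ) ∈ F.mo Set.univ := by
    intro k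
    induction k with
    | zero =>
      have h4 : eN F.N (-(2 * Real.pi * Complex.I) * ((0 : ℕ) : ℂ) : ℂ) = 1 := by
        rw [(Helper65MT100.eN_eq hN _).1, Nat.cast_zero, mul_zero, zero_smul,
          IsNilpotent.exp_zero]
      rw [h4]
      exact h1
    | succ k ih =>
      have h4 : (-(2 * Real.pi * Complex.I) * ((k + 1 : ℕ) : ℂ) : ℂ) =
          -(2 * Real.pi * Complex.I) * k + -(2 * Real.pi * Complex.I) := by
        push_cast
        ring
      rw [h4, Pool.Agent.MT100G.H46.eN_add F.N hN]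
      exact hmul _ ih _ h3
  refine ⟨?_, ?_⟩
  · have h4 : eN F.N s * eN F.N (-s) = 1 := by
      rw [← Pool.Agent.MT100G.H46.eN_add F.N hN, add_neg_cancel, (Helper65MT100.eN_eq hN _).1,
        zero_smul, IsNilpotent.exp_zero]
    have h5 := congrArg Matrix.det h4
    rw [Matrix.det_mul, Matrix.det_one] at h5
    exact IsUnit.of_mul_eq_one _ h5
  · intro p hp
    obtain ⟨G, hG⟩ := pev_eN F.N p
    have hroot : ∀ k : ℕ, G.IsRoot (-(2 * Real.pi * Complex.I) * k : ℂ) := by
      intro k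
      rw [IsRoot.def, hG]
      exact hp _ (hpow k)
    have hinf : Set.Infinite {x : ℂ | G.IsRoot x} := by
      refine Set.infinite_of_injective_forall_mem (f := fun k : ℕ =>
        (-(2 * Real.pi * Complex.I) * k : ℂ)) ?_ hroot
      intro a b hab
      have h6 : (-(2 * Real.pi * Complex.I) : ℂ) ≠ 0 := neg_ne_zero.2 Complex.two_pi_I_ne_zero
      have h7 := mul_left_cancel₀ h6 hab
      exact_mod_cast h7
    have h0 : G = 0 := Polynomial.eq_zero_of_infinite_isRoot G hinf
    rw [← hG, h0, eval_zero]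

end Pool.Agent.MT100A.H46
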